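import Pool.Agent.TH497.PW.Red
import Pool.Agent.H170.Reg.Gr

set_option autoImplicit false

/-! # Integer flows from flows modulo five -/

namespace Pool.Agent.TH497.PW

open Finset Pool.Agent.H239R2.Cover Pool.Agent.H170.Reg

variable {V E : Type} [Fintype V] [DecidableEq V] [Fintype E] [DecidableEq E]

theorem int_flow (src dst : E → V) (h : NZF src dst) :
    ∃ F : E → ℤ, (∀ e, 1 ≤ |F e| ∧ |F e| ≤ 4) ∧
      ∀ v, ∑ e, F e * ((if src e = v then 1 else 0) - (if dst e = v then 1 else 0)) = 0 := by
  classical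
  rcases isEmpty_or_nonempty V with hV | ⟨⟨r⟩⟩
  · exact ⟨fun _ => 0, fun e => (hV.false (src e)).elim, fun v => (hV.false v).elim⟩
  obtain ⟨f, hf, hfb⟩ := h
  have hdiv : ∀ v : Rt r, ((5 : ℕ) : ℤ) ∣ ∑ e, ((f e).val : ℤ) * inc src dst r e v := by
    intro v
    rw [← ZMod.intCast_zmod_eq_zero_iff_dvd]
    push_cast
    have h1 := hfb v.1
    rw [← h1]
    refine Finset.sum_congr rfl fun e _ => ?_
    rw [ZMod.natCast_val, ZMod.cast_id]
    simp [inc, ic]
  choose a' ha' using hdiv
  obtain ⟨F, hF, hF0⟩ := int_of_mod (inc src dst r) (unimod_inc src dst r) 5 (by omega)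
    (fun e => ((f e).val : ℤ)) a' (fun e => by
      have h1 : f e ≠ 0 := hf e
      have h2 : (f e).val ≠ 0 := by rwa [Ne, ZMod.val_eq_zero]
      have h3 := ZMod.val_lt (f e)
      constructor
      · omega
      · push_cast; omega) (by
      ext v
      simp only [Finset.sum_apply, Pi.smul_apply, smul_eq_mul]
      exact ha' v)
  refine ⟨F, fun e => ?_, fun v => flow_root src dst F r (fun v hv => ?_) v⟩
  · have := hF e
    push_cast at this
    constructor
    · exact this.1
    · linarith [this.2]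
  · have h2 := congrFun hF0 ⟨v, hv⟩
    simp only [Finset.sum_apply, Pi.smul_apply, smul_eq_mul, inc, Pi.zero_apply] at h2
    exact h2

end Pool.Agent.TH497.PW
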