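import Pool.Agent.TH497.PW.Graph

set_option autoImplicit false

/-! # Vertex sets with few crossing edges -/

namespace Pool.Agent.TH497.PW

open Finset

variable {V E : Type} [DecidableEq V] [DecidableEq E]

/-- the number of edges of `F` with exactly one end in `Y` -/
def cross (src dst : E → V) (F : Finset E) (Y : Finset V) : ℕ :=
  (F.filter (fun e => ¬ (src e ∈ Y ↔ dst e ∈ Y))).card

omit [DecidableEq E] in
theorem cross_eq_zero {src dst : E → V} {F : Finset E} {Y : Finset V}
    (h : ∀ e ∈ F, (src e ∈ Y ↔ dst e ∈ Y)) : cross src dst F Y = 0 := by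
  unfold cross
  rw [card_eq_zero, filter_eq_empty_iff]
  intro e he
  rw [not_not]
  exact h e he

omit [DecidableEq E] in
theorem cross_congr {src dst : E → V} {F : Finset E} {Y Y' : Finset V}
    (h : ∀ e ∈ F, ((src e ∈ Y ↔ dst e ∈ Y) ↔ (src e ∈ Y' ↔ dst e ∈ Y'))) :
    cross src dst F Y = cross src dst F Y' := by
  unfold cross
  congr 1
  refine filter_congr fun e he => ?_
  rw [h e he]

theorem cross_insert_le (src dst : E → V) (F : Finset E) (Y : Finset V) (e : E) :
    cross src dst (insert e F) Y ≤ cross src dst F Y + 1 := by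
  unfold cross
  rw [filter_insert]
  split_ifs
  · exact Nat.le_succ _
  · exact card_insert_le e _

theorem cross_insert_same {src dst : E → V} (F : Finset E) {Y : Finset V} {e : E}
    (h : src e ∈ Y ↔ dst e ∈ Y) : cross src dst (insert e F) Y = cross src dst F Y := by
  unfold cross
  rw [filter_insert, if_neg (not_not.mpr h)]

/-- every listed vertex set is realized with at most `l` crossing edges -/
def Cl (src dst : E → V) (F : Finset E) (P : Finset V) (k : ℕ) (β : ℕ → V) (l L : ℕ) : Prop :=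
  ∀ J, J < 2 ^ k → L.testBit J = true → ∃ Y : Finset V, Y ⊆ P ∧
    (∀ i, i < k → (β i ∈ Y ↔ dg 2 J i = 1)) ∧ cross src dst F Y ≤ l

variable {src dst : E → V} {F : Finset E} {P : Finset V} {k : ℕ} {β : ℕ → V} {l L : ℕ}

omit [DecidableEq E] in
theorem Cl.or {A B : ℕ} (h1 : Cl src dst F P k β l A) (h2 : Cl src dst F P k β l B) :
    Cl src dst F P k β l (Nat.lor A B) := by
  intro J hJ h
  rw [tb_lor, Bool.or_eq_true] at h
  rcases h with h | h
  · exact h1 J hJ h
  · exact h2 J hJ h

theorem sub_mem {A B c : ℕ} (h : sub A B = true) (hc : A.testBit c = true) :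
    B.testBit c = true := by
  unfold sub at h
  have h1 := Nat.eq_of_beq_eq_true h
  rw [← h1, tb_land, Bool.and_eq_true] at hc
  exact hc.2

omit [DecidableEq E] in
theorem Cl.sub {A B : ℕ} (h : Cl src dst F P k β l B) (hs : sub A B = true) :
    Cl src dst F P k β l A := fun J hJ hA => h J hJ (sub_mem hs hA)

theorem dg_top {k J : ℕ} (h : J < 2 ^ k) : dg 2 J k = 0 :=
  (lt_pow_iff (by norm_num) J k).mp h k le_rfl

theorem dg_top_add {k J : ℕ} (h : J < 2 ^ k) (i : ℕ) :
    dg 2 (2 ^ k + J) i = if i = k then 1 else dg 2 J i := by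
  have := dg_add (b := 2) (a := 1) (by norm_num) (dg_top h) (by norm_num) i
  rw [one_mul, add_comm] at this
  exact this

theorem dg_full {k i : ℕ} (h : i < k) : dg 2 (2 ^ k - 1) i = 1 := by
  have h1 : (2 ^ k - 1).testBit i = true := by
    rw [Nat.testBit_two_pow_sub_one, decide_eq_true_eq]; exact h
  rw [Nat.testBit_eq_decide_div_mod_eq, decide_eq_true_eq] at h1
  exact h1

omit [DecidableEq E] in
theorem Cl.open (h : Cl src dst F P k β l L) {v : V} (hv : v ∉ P)
    (hβ : ∀ i, i < k → β i ∈ P) (hF : ∀ e ∈ F, src e ∈ P ∧ dst e ∈ P) :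
    Cl src dst F (insert v P) (k + 1) (Function.update β k v) l
      (opn (2 ^ k) (2 ^ (2 ^ k) - 1) L) := by
  have hne : ∀ i, i < k → β i ≠ v := fun i hi h1 => hv (h1 ▸ hβ i hi)
  have h2k : 0 < 2 ^ k := by positivity
  intro J _ hL
  unfold opn at hL
  rw [tb_lor, tb_lor, tb_shl, tb_land, tb_land, tb_lor, Bool.or_eq_true, Bool.or_eq_true,
    Bool.or_eq_true, Bool.and_eq_true, Bool.and_eq_true, Bool.and_eq_true, decide_eq_true_eq,
    Nat.testBit_two_pow_sub_one, Nat.testBit_two_pow_sub_one, decide_eq_true_eq,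
    decide_eq_true_eq, tb_pow, tb_pow] at hL
  rcases hL with (⟨h1, h2⟩ | ⟨h1, h2, h3⟩) | (h1 | h1)
  · obtain ⟨Y, hY, h3, h4⟩ := h J h2 h1
    refine ⟨Y, hY.trans (subset_insert _ _), fun i hi => ?_, h4⟩
    rcases Nat.lt_succ_iff_lt_or_eq.mp hi with h5 | h5
    · rw [Function.update_of_ne h5.ne]
      exact h3 i h5
    · subst h5
      rw [Function.update_self, dg_top h2]
      constructor
      · intro h6; exact absurd (hY h6) hv
      · intro h6; omega
  · obtain ⟨J', rfl⟩ : ∃ J', J = 2 ^ k + J' := ⟨J - 2 ^ k, by omega⟩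
    rw [Nat.add_sub_cancel_left] at h2 h3
    obtain ⟨Y, hY, h4, h5⟩ := h J' h3 h2
    refine ⟨insert v Y, insert_subset_insert _ hY, fun i hi => ?_, ?_⟩
    · rw [dg_top_add h3]
      rcases Nat.lt_succ_iff_lt_or_eq.mp hi with h6 | h6
      · rw [Function.update_of_ne h6.ne, if_neg h6.ne, mem_insert, ← h4 i h6]
        constructor
        · rintro (h7 | h7)
          · exact absurd h7 (hne i h6)
          · exact h7
        · exact Or.inr
      · subst h6
        rw [Function.update_self, if_pos rfl]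
        simp
    · rw [← cross_congr (Y := Y)]
      · exact h5
      · intro e he
        obtain ⟨h6, h7⟩ := hF e he
        rw [mem_insert, mem_insert]
        have h8 : src e ≠ v := fun h => hv (h ▸ h6)
        have h9 : dst e ≠ v := fun h => hv (h ▸ h7)
        simp [h8, h9]
  · refine ⟨{v}, by simp, fun i hi => ?_, ?_⟩
    · rw [h1]
      have h2 := dg_top_add (k := k) (J := 0) h2k i
      rw [add_zero] at h2
      rw [h2]
      rcases Nat.lt_succ_iff_lt_or_eq.mp hi with h6 | h6
      · rw [Function.update_of_ne h6.ne, if_neg h6.ne, dg_zero, mem_singleton]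
        constructor
        · intro h7; exact absurd h7 (hne i h6)
        · intro h7; omega
      · subst h6
        rw [Function.update_self, if_pos rfl]
        simp
    · rw [cross_eq_zero]
      · omega
      · intro e he
        obtain ⟨h6, h7⟩ := hF e he
        rw [mem_singleton, mem_singleton]
        have h8 : src e ≠ v := fun h => hv (h ▸ h6)
        have h9 : dst e ≠ v := fun h => hv (h ▸ h7)
        simp [h8, h9]
  · refine ⟨P, subset_insert _ _, fun i hi => ?_, ?_⟩
    · rw [h1]
      rcases Nat.lt_succ_iff_lt_or_eq.mp hi with h6 | h6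
      · rw [Function.update_of_ne h6.ne, dg_full h6]
        simp [hβ i h6]
      · subst h6
        rw [Function.update_self, dg_top (by omega)]
        constructor
        · intro h7; exact absurd h7 hv
        · intro h7; omega
    · rw [cross_eq_zero]
      · omega
      · intro e he
        obtain ⟨h6, h7⟩ := hF e he
        simp [h6, h7]

/-- an edge between the positions `p` and `q` -/
theorem Cl.edgeSame (h : Cl src dst F P k β l L) {e : E} {p q : ℕ} (hp : p < k) (hq : q < k)
    (hj : Joins src dst e (β q) (β p)) {m : ℕ}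
    (hm : ∀ J, m.testBit J = true → dg 2 J p = dg 2 J q) :
    Cl src dst (insert e F) P k β l (Nat.land L m) := by
  intro J hJ hL
  rw [tb_land, Bool.and_eq_true] at hL
  obtain ⟨Y, hY, h3, h4⟩ := h J hJ hL.1
  refine ⟨Y, hY, h3, ?_⟩
  rw [cross_insert_same]
  · exact h4
  · have h5 := h3 p hp
    have h6 := h3 q hq
    rw [hm J hL.2] at h5
    rcases hj with ⟨h7, h8⟩ | ⟨h7, h8⟩
    · rw [h7, h8, h5, h6]
    · rw [h7, h8, h5, h6]

theorem Cl.edgeAny (h : Cl src dst F P k β l L) (e : E) :
    Cl src dst (insert e F) P k β (l + 1) L := by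
  intro J hJ hL
  obtain ⟨Y, hY, h3, h4⟩ := h J hJ hL
  exact ⟨Y, hY, h3, (cross_insert_le src dst F Y e).trans (by omega)⟩

omit [DecidableEq E] in
/-- the last position is forgotten -/
theorem Cl.prj (h : Cl src dst F P (k + 1) β l L) :
    Cl src dst F P k β l (prj (2 ^ k) (2 ^ (2 ^ k) - 1) L) := by
  intro J hJ hL
  unfold PW.prj at hL
  rw [tb_lor, tb_land, tb_shr, Bool.or_eq_true, Bool.and_eq_true] at hL
  have e1 : 2 ^ (k + 1) = 2 ^ k + 2 ^ k := by ring
  rcases hL with ⟨h1, _⟩ | h1
  · obtain ⟨Y, hY, h3, h4⟩ := h J (by omega) h1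
    exact ⟨Y, hY, fun i hi => h3 i (by omega), h4⟩
  · obtain ⟨Y, hY, h3, h4⟩ := h (2 ^ k + J) (by omega) h1
    refine ⟨Y, hY, fun i hi => ?_, h4⟩
    rw [h3 i (by omega), dg_top_add hJ, if_neg hi.ne]

omit [DecidableEq E] in
/-- the current vertex takes the position `r` -/
theorem Cl.prjU {v : V} {n : ℕ} (h : Cl src dst F P (k + 1) (Function.update β k v) l L)
    {r : PosR} (hr : r.OK n) (hp : r.p < k) :
    Cl src dst F P k (Function.update β r.p v) l (prjU r (2 ^ k) (2 ^ (2 ^ k) - 1) L) := by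
  intro J hJ hL
  unfold PW.prjU at hL
  simp only [fz_eq, tb_lor, tb_shl, tb_shr, tb_land, Bool.or_eq_true, Bool.and_eq_true,
    decide_eq_true_eq, hr.jw] at hL
  have e1 : 2 ^ (k + 1) = 2 ^ k + 2 ^ k := by ring
  -- the common part
  have key : ∀ J0 x y, J0 < 2 ^ k → x < 2 → y < 2 → dg 2 J0 r.p = 0 → J = J0 + y * 2 ^ r.p →
      (if y = 1 then L.testBit (2 ^ k + (J0 + x * 2 ^ r.p)) else
        L.testBit (J0 + x * 2 ^ r.p)) = true →
      ∃ Y : Finset V, Y ⊆ P ∧ (∀ i, i < k → (Function.update β r.p v i ∈ Y ↔ dg 2 J i = 1)) ∧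
        cross src dst F Y ≤ l := by
    intro J0 x y hJ0 hx hy h0 hJe hT
    have h1 : J0 + x * 2 ^ r.p < 2 ^ k := by
      rw [lt_pow_iff (by norm_num)] at hJ0 ⊢
      intro i hi
      rw [dg_add (by norm_num) h0 hx, if_neg (by omega), hJ0 i hi]
    have hdJ : ∀ i, dg 2 J i = if i = r.p then y else dg 2 J0 i := by
      intro i
      rw [hJe, dg_add (by norm_num) h0 hy]
    by_cases hy1 : y = 1
    · rw [if_pos hy1] at hT
      obtain ⟨Y, hY, h3, h4⟩ := h _ (by omega) hT
      refine ⟨Y, hY, fun i hi => ?_, h4⟩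
      by_cases hip : i = r.p
      · subst hip
        have h5 := h3 k (by omega)
        rw [Function.update_self, dg_top_add h1, if_pos rfl] at h5
        rw [Function.update_self, hdJ, if_pos rfl, h5, hy1]
      · have h5 := h3 i (by omega)
        rw [Function.update_of_ne hi.ne, dg_top_add h1, if_neg hi.ne,
          dg_add (by norm_num) h0 hx, if_neg hip] at h5
        rw [Function.update_of_ne hip, hdJ, if_neg hip, h5]
    · rw [if_neg hy1] at hT
      obtain ⟨Y, hY, h3, h4⟩ := h _ (by omega) hT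
      refine ⟨Y, hY, fun i hi => ?_, h4⟩
      by_cases hip : i = r.p
      · subst hip
        have h5 := h3 k (by omega)
        rw [Function.update_self, dg_top h1] at h5
        rw [Function.update_self, hdJ, if_pos rfl, h5]
        constructor
        · intro h6; omega
        · intro h6; omega
      · have h5 := h3 i (by omega)
        rw [Function.update_of_ne hi.ne, dg_add (by norm_num) h0 hx, if_neg hip] at h5
        rw [Function.update_of_ne hip, hdJ, if_neg hip, h5]
  rcases hL with (⟨⟨h1, _⟩, h2⟩ | ⟨⟨h1, _⟩, h2⟩) | (⟨h1, h2⟩ | ⟨h1, h2, h3⟩)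
  · have h0 := hr.j0 _ h2
    exact key J 0 0 hJ (by norm_num) (by norm_num) h0 (by simp) (by simpa using h1)
  · rw [add_comm] at h1 h2
    have h3 := hr.j1 _ h2
    have h0 : dg 2 J r.p = 0 := by
      have h4 : dg 2 (J + 1 * 2 ^ r.p) r.p = 1 := by rw [one_mul]; exact h3
      unfold dg at h4 ⊢
      rw [Nat.add_mul_div_right _ _ (by positivity)] at h4
      omega
    exact key J 1 0 hJ (by norm_num) (by norm_num) h0 (by simp) (by simpa using h1)
  · have h3 := hr.j1 _ h2
    obtain ⟨J0, h4, h5⟩ := dg_clear (b := 2) (by norm_num) J r.p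
    rw [h3] at h4
    refine key J0 1 1 (by omega) (by norm_num) (by norm_num) h5 h4 ?_
    rw [if_pos rfl, ← h4]
    exact h1
  · have h0 := hr.j0 _ h3
    obtain ⟨J0, rfl⟩ : ∃ J0, J = J0 + 2 ^ r.p := ⟨J - 2 ^ r.p, by omega⟩
    rw [Nat.add_sub_cancel] at h0 h2
    refine key J0 0 1 (lt_of_le_of_lt (Nat.le_add_right _ _) hJ) (by norm_num) (by norm_num) h0
      (by simp) ?_
    rw [if_pos rfl]
    simpa using h2

omit [DecidableEq E] in
/-- relabelling -/
theorem Cl.swap {n p q : ℕ} {r : Sw} (hr : r.OK 2 n p q) (hpq : p < q) (hq : q < k)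
    (hk : k ≤ n) (h : Cl src dst F P k β l (r.app L)) :
    Cl src dst F P k (β ∘ Equiv.swap p q) l L := by
  intro J hJ hL
  obtain ⟨J', h1, h2⟩ := Sw.app_mem (by norm_num) hpq hr
    (lt_of_lt_of_le hJ (Nat.pow_le_pow_right (by norm_num) hk)) hL
  have hJ' : J' < 2 ^ k := by
    rw [lt_pow_iff (by norm_num)] at hJ ⊢
    intro i hi
    rw [h2, if_neg (by omega), if_neg (by omega), hJ i hi]
  obtain ⟨Y, hY, h3, h4⟩ := h J' hJ' h1
  refine ⟨Y, hY, fun i hi => ?_, h4⟩
  simp only [Function.comp]
  have hs : Equiv.swap p q i < k := by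
    rw [Equiv.swap_apply_def]
    split_ifs <;> omega
  rw [h3 _ hs, h2]
  by_cases h5 : i = p
  · subst h5
    rw [Equiv.swap_apply_left, if_neg hpq.ne', if_pos rfl]
  · by_cases h6 : i = q
    · subst h6
      rw [Equiv.swap_apply_right, if_pos rfl]
    · rw [Equiv.swap_apply_of_ne_of_ne h5 h6, if_neg h5, if_neg h6]

end Pool.Agent.TH497.PW
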