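import Mathlib

set_option autoImplicit false

/-! # Digits and exchange of digits -/

namespace Pool.Agent.TH497.PW

/-- the digit number `i` of `c` in base `b` -/
def dg (b c i : ℕ) : ℕ := c / b ^ i % b

theorem dg_lt {b : ℕ} (hb : 0 < b) (c i : ℕ) : dg b c i < b := Nat.mod_lt _ hb

theorem dg_add {b c p a : ℕ} (hb : 0 < b) (h : dg b c p = 0) (ha : a < b) (i : ℕ) :
    dg b (c + a * b ^ p) i = if i = p then a else dg b c i := by
  unfold dg at *
  rcases lt_trichotomy i p with h1 | h1 | h1
  · rw [if_neg h1.ne]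
    obtain ⟨d, rfl⟩ := Nat.exists_eq_add_of_lt h1
    have h2 : a * b ^ (i + d + 1) = b ^ i * (a * b ^ d * b) := by ring
    rw [h2, Nat.add_mul_div_left _ _ (pow_pos hb i)]
    exact Nat.add_mul_mod_self_right _ _ _
  · subst h1
    rw [if_pos rfl, mul_comm a, Nat.add_mul_div_left _ _ (pow_pos hb i), Nat.add_mod, h,
      zero_add, Nat.mod_mod, Nat.mod_eq_of_lt ha]
  · rw [if_neg h1.ne']
    obtain ⟨d, rfl⟩ := Nat.exists_eq_add_of_lt h1
    have h2 : b ^ (p + d + 1) = b ^ p * b * b ^ d := by ring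
    have h3 : (c / b ^ p + a) / b = c / b ^ p / b := by
      have h4 := Nat.div_add_mod (c / b ^ p) b
      rw [h, add_zero] at h4
      rw [← h4, Nat.mul_add_div hb, Nat.div_eq_of_lt ha, add_zero, Nat.mul_div_cancel_left _ hb]
    rw [h2, ← Nat.div_div_eq_div_mul, ← Nat.div_div_eq_div_mul, ← Nat.div_div_eq_div_mul,
      ← Nat.div_div_eq_div_mul, mul_comm a, Nat.add_mul_div_left _ _ (pow_pos hb p), h3]

/-- clearing a digit -/
theorem dg_clear {b : ℕ} (hb : 0 < b) (c p : ℕ) :
    ∃ c0, c = c0 + dg b c p * b ^ p ∧ dg b c0 p = 0 := by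
  have h1 : dg b c p * b ^ p ≤ c := by
    calc dg b c p * b ^ p ≤ c / b ^ p * b ^ p := Nat.mul_le_mul_right _ (Nat.mod_le _ _)
      _ ≤ c := Nat.div_mul_le_self _ _
  refine ⟨c - dg b c p * b ^ p, by omega, ?_⟩
  unfold dg
  have h2 : c - c / b ^ p % b * b ^ p = c - b ^ p * (c / b ^ p % b) := by rw [mul_comm]
  rw [h2, Nat.sub_mul_div]
  have h3 := Nat.div_add_mod (c / b ^ p) b
  have h4 : c / b ^ p - c / b ^ p % b = b * (c / b ^ p / b) := by omega
  rw [h4, Nat.mul_mod_right]

theorem dg_zero (b i : ℕ) : dg b 0 i = 0 := by simp [dg]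

theorem eq_zero_of_dg {b : ℕ} (hb : 1 < b) (n : ℕ) (h : ∀ i, dg b n i = 0) : n = 0 := by
  induction n using Nat.strong_induction_on with
  | _ n ih =>
    by_contra hn
    have h0 : n % b = 0 := by simpa [dg] using h 0
    have h1 : n / b = 0 := by
      apply ih (n / b) (Nat.div_lt_self (by omega) hb)
      intro i
      have := h (i + 1)
      unfold dg at *
      rw [Nat.div_div_eq_div_mul, ← pow_succ']
      exact this
    have := Nat.div_add_mod n b
    rw [h0, h1] at this
    simp at this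
    omega

theorem lt_pow_iff {b : ℕ} (hb : 1 < b) (c k : ℕ) : c < b ^ k ↔ ∀ i, k ≤ i → dg b c i = 0 := by
  constructor
  · intro h i hi
    unfold dg
    rw [Nat.div_eq_of_lt (lt_of_lt_of_le h (Nat.pow_le_pow_right (by omega) hi)), Nat.zero_mod]
  · intro h
    have h1 : c / b ^ k = 0 := by
      apply eq_zero_of_dg hb
      intro i
      have := h (k + i) (by omega)
      unfold dg at *
      rw [Nat.div_div_eq_div_mul, ← pow_add]
      exact this
    rcases Nat.div_eq_zero_iff.mp h1 with h2 | h2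
    · exact absurd h2 (pow_pos (by omega) k).ne'
    · exact h2

/-- exchange of the digits `p` and `q`: existence of the exchanged code. -/
theorem exists_swap {b : ℕ} (hb : 1 < b) {p q : ℕ} (hpq : p < q) (c : ℕ) :
    ∃ c0, dg b c0 p = 0 ∧ dg b c0 q = 0 ∧ c = c0 + dg b c p * b ^ p + dg b c q * b ^ q ∧
      (∀ x y, x < b → y < b → ∀ i, dg b (c0 + x * b ^ p + y * b ^ q) i
        = if i = p then x else if i = q then y else dg b c i) := by
  have hb0 : 0 < b := by omega
  obtain ⟨c1, h1, h2⟩ := dg_clear hb0 c p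
  obtain ⟨c2, h3, h4⟩ := dg_clear hb0 c1 q
  have e1 : dg b c q = dg b c1 q := by
    conv_lhs => rw [h1]
    rw [dg_add hb0 h2 (dg_lt hb0 _ _), if_neg hpq.ne']
  have e2 : dg b c2 p = 0 := by
    have : dg b c1 p = dg b c2 p := by
      conv_lhs => rw [h3]
      rw [dg_add hb0 h4 (dg_lt hb0 _ _), if_neg hpq.ne]
    rw [← this, h2]
  refine ⟨c2, e2, h4, ?_, ?_⟩
  · rw [e1]
    omega
  · intro x y hx hy i
    have h5 : dg b (c2 + x * b ^ p) q = 0 := by
      rw [dg_add hb0 e2 hx, if_neg hpq.ne', h4]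
    rw [dg_add hb0 h5 hy, dg_add hb0 e2 hx]
    by_cases hip : i = p
    · subst hip
      rw [if_neg hpq.ne, if_pos rfl, if_pos rfl]
    · rw [if_neg hip, if_neg hip]
      by_cases hiq : i = q
      · rw [if_pos hiq, if_pos hiq]
      · rw [if_neg hiq, if_neg hiq]
        conv_rhs => rw [h1]
        rw [dg_add hb0 h2 (dg_lt hb0 _ _), if_neg hip]
        conv_rhs => rw [h3]
        rw [dg_add hb0 h4 (dg_lt hb0 _ _), if_neg hiq]

/-- forced evaluation -/
noncomputable def fz {α : Type} (n : ℕ) (f : ℕ → α) : α :=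
  @Nat.rec (fun _ => α) (f 0) (fun m _ => f (Nat.succ m)) n

theorem fz_eq {α : Type} (n : ℕ) (f : ℕ → α) : fz n f = f n := by
  cases n <;> rfl

/-- the shifted parts of a set of codes -/
noncomputable def upS (S W s : ℕ) (l : List ℕ) : ℕ :=
  @List.rec ℕ (fun _ => ℕ → ℕ) (fun _ => 0)
    (fun m _ ih s => Nat.lor (Nat.shiftLeft (Nat.land S m) s) (ih (Nat.add s W))) l s

noncomputable def dnS (S W s : ℕ) (l : List ℕ) : ℕ :=
  @List.rec ℕ (fun _ => ℕ → ℕ) (fun _ => 0)
    (fun m _ ih s => Nat.lor (Nat.shiftRight (Nat.land S m) s) (ih (Nat.add s W))) l s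

theorem upS_cons (S W s m : ℕ) (l : List ℕ) : upS S W s (m :: l) =
    Nat.lor (Nat.shiftLeft (Nat.land S m) s) (upS S W (s + W) l) := rfl

theorem dnS_cons (S W s m : ℕ) (l : List ℕ) : dnS S W s (m :: l) =
    Nat.lor (Nat.shiftRight (Nat.land S m) s) (dnS S W (s + W) l) := rfl

/-- data for an exchange: difference of weights, codes with equal digits, codes with larger lower
digit, codes with larger upper digit -/
structure Sw where
  W : ℕ
  m0 : ℕ
  ups : List ℕ
  dns : List ℕ
  deriving DecidableEq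

noncomputable def Sw.app (r : Sw) (S : ℕ) : ℕ :=
  Nat.lor (Nat.lor (Nat.land S r.m0) (upS S r.W r.W r.ups)) (dnS S r.W r.W r.dns)

theorem tb_lor (a b i : ℕ) : (Nat.lor a b).testBit i = (a.testBit i || b.testBit i) :=
  Nat.testBit_or a b i

theorem tb_land (a b i : ℕ) : (Nat.land a b).testBit i = (a.testBit i && b.testBit i) :=
  Nat.testBit_and a b i

theorem tb_shl (a s i : ℕ) : (Nat.shiftLeft a s).testBit i = (decide (s ≤ i) && a.testBit (i - s)) :=
  Nat.testBit_shiftLeft a

theorem tb_shr (a s i : ℕ) : (Nat.shiftRight a s).testBit i = a.testBit (s + i) :=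
  Nat.testBit_shiftRight a

theorem upS_mem (S W : ℕ) : ∀ (ms : List ℕ) (s j c : ℕ), (h : j < ms.length) →
    S.testBit c = true → (ms[j]).testBit c = true →
    (upS S W s ms).testBit (c + (s + j * W)) = true := by
  intro ms
  induction ms with
  | nil => intro s j c h; simp at h
  | cons m ms ih =>
    intro s j c h hS hm
    rw [upS_cons, tb_lor]
    rcases j with _ | j
    · rw [tb_shl, tb_land]
      simp at hm
      simp [hS, hm]
    · have := ih (s + W) j c (by simpa using h) hS (by simpa using hm)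
      have e : c + (s + (j + 1) * W) = c + (s + W + j * W) := by ring
      rw [e, this, Bool.or_true]

theorem dnS_mem (S W : ℕ) : ∀ (ms : List ℕ) (s j c : ℕ), (h : j < ms.length) →
    S.testBit (c + (s + j * W)) = true → (ms[j]).testBit (c + (s + j * W)) = true →
    (dnS S W s ms).testBit c = true := by
  intro ms
  induction ms with
  | nil => intro s j c h; simp at h
  | cons m ms ih =>
    intro s j c h hS hm
    rw [dnS_cons, tb_lor]
    rcases j with _ | j
    · rw [tb_shr, tb_land]
      simp at hm hS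
      rw [add_comm s c, hS, hm]
      rfl
    · have e : c + (s + (j + 1) * W) = c + (s + W + j * W) := by ring
      have := ih (s + W) j c (by simpa using h) (by rw [← e]; exact hS)
        (by rw [← e]; simpa using hm)
      rw [this, Bool.or_true]

/-- the exchange data is complete for the digits `p < q` of codes with `n` digits -/
def Sw.OK (b n p q : ℕ) (r : Sw) : Prop :=
  r.W = b ^ q - b ^ p ∧ r.ups.length + 1 = b ∧ r.dns.length + 1 = b ∧
  (∀ c, c < b ^ n → dg b c p = dg b c q → r.m0.testBit c = true) ∧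
  (∀ c j, c < b ^ n → (h : j < r.ups.length) → dg b c p = dg b c q + (j + 1) →
    (r.ups[j]).testBit c = true) ∧
  (∀ c j, c < b ^ n → (h : j < r.dns.length) → dg b c q = dg b c p + (j + 1) →
    (r.dns[j]).testBit c = true)

theorem Sw.app_mem {b n p q : ℕ} (hb : 1 < b) (hpq : p < q) {r : Sw} (hr : r.OK b n p q)
    {S c : ℕ} (hc : c < b ^ n) (hS : S.testBit c = true) :
    ∃ c', (r.app S).testBit c' = true ∧
      ∀ i, dg b c' i = if i = p then dg b c q else if i = q then dg b c p else dg b c i := by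
  obtain ⟨hW, hl1, hl2, h0, h1, h2⟩ := hr
  obtain ⟨c0, _, _, hce, hdig⟩ := exists_swap hb hpq c
  have hb0 : 0 < b := by omega
  have hx := dg_lt hb0 c p
  have hy := dg_lt hb0 c q
  refine ⟨c0 + dg b c q * b ^ p + dg b c p * b ^ q, ?_, hdig _ _ hy hx⟩
  have hpw : b ^ p ≤ b ^ q := Nat.pow_le_pow_right hb0 hpq.le
  obtain ⟨W, hW'⟩ : ∃ W, b ^ q = b ^ p + W := ⟨b ^ q - b ^ p, by omega⟩
  have hWW : r.W = W := by omega
  unfold Sw.app
  rw [tb_lor, tb_lor, tb_land]
  rcases lt_trichotomy (dg b c p) (dg b c q) with h | h | h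
  · -- the upper digit is larger
    obtain ⟨j, hj⟩ := Nat.exists_eq_add_of_lt h
    have hj' : j < r.dns.length := by omega
    have e : c = (c0 + dg b c q * b ^ p + dg b c p * b ^ q) + (r.W + j * r.W) := by
      rw [hWW]
      conv_lhs => rw [hce]
      rw [hj, hW']
      ring
    have := dnS_mem S r.W r.dns r.W j (c0 + dg b c q * b ^ p + dg b c p * b ^ q) hj'
      (by rw [← e]; exact hS) (by rw [← e]; exact h2 c j hc hj' (by omega))
    rw [this, Bool.or_true]
  · have e : c0 + dg b c q * b ^ p + dg b c p * b ^ q = c := by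
      conv_rhs => rw [hce]
      rw [h]
    rw [e, hS, h0 c hc h]
    simp
  · obtain ⟨j, hj⟩ := Nat.exists_eq_add_of_lt h
    have hj' : j < r.ups.length := by omega
    have e : c + (r.W + j * r.W) = c0 + dg b c q * b ^ p + dg b c p * b ^ q := by
      rw [hWW]
      conv_lhs => rw [hce]
      rw [hj, hW']
      ring
    have := upS_mem S r.W r.ups r.W j c hj' hS (h1 c j hc hj' (by omega))
    rw [e] at this
    rw [this, Bool.or_true, Bool.true_or]

end Pool.Agent.TH497.PW
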