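import Pool.Agent.TH497.PW.Dig

set_option autoImplicit false

/-! # Boundary states as bit masks: the closure test -/

namespace Pool.Agent.TH497.PW

/-! ### masks -/

def extM (w M : ℕ) : ℕ → ℕ
  | 0 => 0
  | y + 1 => Nat.lor (extM w M y) (Nat.shiftLeft M (y * w))

/-- codes with `p + 1 + t` digits and digit `a` at `p` -/
def dM (b p a : ℕ) : ℕ → ℕ
  | 0 => Nat.shiftLeft (2 ^ (b ^ p) - 1) (a * b ^ p)
  | t + 1 => extM (b ^ (p + 1 + t)) (dM b p a t) b

def orR (f : ℕ → ℕ) : ℕ → ℕ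
  | 0 => 0
  | y + 1 => Nat.lor (orR f y) (f y)

/-- codes with `n` digits and digit sum `s` modulo `b` -/
def sM (b : ℕ) : ℕ → ℕ → ℕ
  | 0, s => if s = 0 then 1 else 0
  | n + 1, s => orR (fun x => Nat.shiftLeft (sM b n ((s + b - x) % b)) (x * b ^ n)) b

def mkSw (b n p q : ℕ) : Sw where
  W := b ^ q - b ^ p
  m0 := orR (fun y => Nat.land (dM b p y (n - 1 - p)) (dM b q y (n - 1 - q))) b
  ups := (List.range (b - 1)).map fun j =>
    orR (fun y => Nat.land (dM b p (y + j + 1) (n - 1 - p)) (dM b q y (n - 1 - q))) (b - 1 - j)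
  dns := (List.range (b - 1)).map fun j =>
    orR (fun y => Nat.land (dM b p y (n - 1 - p)) (dM b q (y + j + 1) (n - 1 - q))) (b - 1 - j)

/-- masks for a position: codes of vectors (base five) and of vertex sets (base two) -/
structure PosR where
  p : ℕ
  w : ℕ
  d0 : ℕ
  d1 : ℕ
  d2 : ℕ
  d3 : ℕ
  d4 : ℕ
  jw : ℕ
  j1 : ℕ
  j0 : ℕ
  fm : ℕ
  deriving DecidableEq

/-- exchange of two positions -/
structure SwR where
  p : ℕ
  q : ℕ
  a : Sw
  b : Sw
  deriving DecidableEq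

structure Env where
  pos : List PosR
  s0 : ℕ
  s1 : ℕ
  s2 : ℕ
  s3 : ℕ
  s4 : ℕ
  sw : List SwR
  deriving DecidableEq

def mkPos (n N p : ℕ) : PosR where
  p := p
  w := 5 ^ p
  d0 := dM 5 p 0 (n - 1 - p)
  d1 := dM 5 p 1 (n - 1 - p)
  d2 := dM 5 p 2 (n - 1 - p)
  d3 := dM 5 p 3 (n - 1 - p)
  d4 := dM 5 p 4 (n - 1 - p)
  jw := 2 ^ p
  j1 := dM 2 p 1 (N - 1 - p)
  j0 := dM 2 p 0 (N - 1 - p)
  fm := Nat.lor (2 ^ (2 ^ p)) (2 ^ (2 ^ N - 1 - 2 ^ p))

def mkSwR (n p q : ℕ) : SwR := ⟨p, q, mkSw 5 n p q, mkSw 2 n p q⟩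

def pairsU : ℕ → List (ℕ × ℕ)
  | 0 => []
  | q + 1 => pairsU q ++ (List.range q).map fun p => (p, q)

/-- masks for `n` digits; vertex sets have `n + 1` positions -/
def mkEnv (n : ℕ) : Env where
  pos := (List.range n).map (mkPos n (n + 1))
  s0 := sM 5 n 0
  s1 := sM 5 n 1
  s2 := sM 5 n 2
  s3 := sM 5 n 3
  s4 := sM 5 n 4
  sw := (pairsU n).map fun x => mkSwR n x.1 x.2

/-! ### operations -/

noncomputable def cnd {α : Type} (b : Bool) (x y : α) : α := @Bool.rec (fun _ => α) y x b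

/-- the edge from position `r` to the current vertex, on vectors -/
noncomputable def conv (r : PosR) (T : ℕ) : ℕ :=
  fz (Nat.land T r.d0) fun t0 =>
  fz (Nat.shiftRight (Nat.land T r.d1) r.w) fun t1 =>
  fz (Nat.shiftRight (Nat.land T r.d2) (Nat.mul 2 r.w)) fun t2 =>
  fz (Nat.shiftRight (Nat.land T r.d3) (Nat.mul 3 r.w)) fun t3 =>
  fz (Nat.shiftRight (Nat.land T r.d4) (Nat.mul 4 r.w)) fun t4 =>
  Nat.lor
    (Nat.lor (Nat.lor (Nat.lor t1 t2) (Nat.lor t3 t4))
      (Nat.shiftLeft (Nat.lor (Nat.lor t0 t2) (Nat.lor t3 t4)) r.w))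
    (Nat.lor
      (Nat.shiftLeft (Nat.lor (Nat.lor t0 t1) (Nat.lor t3 t4)) (Nat.mul 2 r.w))
      (Nat.lor
        (Nat.shiftLeft (Nat.lor (Nat.lor t0 t1) (Nat.lor t2 t4)) (Nat.mul 3 r.w))
        (Nat.shiftLeft (Nat.lor (Nat.lor t0 t1) (Nat.lor t2 t3)) (Nat.mul 4 r.w))))

/-- the position of weight `w` receives the value of the current vertex -/
def fill (E : Env) (w T : ℕ) : ℕ :=
  Nat.lor
    (Nat.lor (Nat.land T E.s0) (Nat.shiftLeft (Nat.land T E.s1) (Nat.mul 4 w)))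
    (Nat.lor
      (Nat.shiftLeft (Nat.land T E.s2) (Nat.mul 3 w))
      (Nat.lor
        (Nat.shiftLeft (Nat.land T E.s3) (Nat.mul 2 w))
        (Nat.shiftLeft (Nat.land T E.s4) w)))

/-- a boundary state: number of boundary vertices, vectors, sets with at most 0, 1, 2 crossings -/
structure St where
  k : ℕ
  S : ℕ
  l0 : ℕ
  l1 : ℕ
  l2 : ℕ

inductive Tb where
  | lf (s : St)
  | nd (l r : Tb)

noncomputable def Tb.get (t : Tb) : ℕ → St :=
  @Tb.rec (fun _ => ℕ → St) (fun s _ => s)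
    (fun _ _ il ir i => cnd (Nat.beq (Nat.land i 1) 0) (il (Nat.shiftRight i 1))
      (ir (Nat.shiftRight i 1))) t

noncomputable def nth {α : Type} (d : α) (l : List α) : ℕ → α :=
  @List.rec α (fun _ => ℕ → α) (fun _ => d)
    (fun x _ ih n => @Nat.rec (fun _ => α) x (fun m _ => ih m) n) l

def sub (a b : ℕ) : Bool := Nat.beq (Nat.land a b) a

def hit (L J : ℕ) : Bool := Nat.beq (Nat.land (Nat.shiftRight L J) 1) 1

/-- read exchanges of positions below `k`, apply them to the table state and compare -/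
noncomputable def permK (dflt : SwR) (E : Env) (k S' l0' l1' l2' : ℕ) (κ : ℕ → Bool) (fuel : ℕ) :
    ℕ → ℕ → ℕ → ℕ → ℕ → Bool :=
  @Nat.rec (fun _ => ℕ → ℕ → ℕ → ℕ → ℕ → Bool) (fun _ _ _ _ _ => false)
    (fun _ ih S l0 l1 l2 c =>
      fz (Nat.land c 15) fun d =>
      fz (Nat.shiftRight c 4) fun c' =>
      cnd (Nat.beq d 15)
        (cnd (sub l2 l2') (cnd (sub l1 l1') (cnd (sub l0 l0') (cnd (sub S S') (κ c') false)
          false) false) false)
        (cnd (Nat.ble (Nat.succ (nth dflt E.sw d).q) k)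
          (fz ((nth dflt E.sw d).a.app S) fun S1 =>
           fz ((nth dflt E.sw d).b.app l0) fun l01 =>
           fz ((nth dflt E.sw d).b.app l1) fun l11 =>
           fz ((nth dflt E.sw d).b.app l2) fun l21 => ih S1 l01 l11 l21 c')
          false)) fuel

noncomputable def dom (dflt : SwR) (E : Env) (tb : Tb) (k S' l0' l1' l2' c : ℕ) (κ : ℕ → Bool) :
    Bool :=
  fz (Nat.shiftRight c 10) fun c' =>
  cnd (Nat.beq (Tb.get tb (Nat.land c 1023)).k k)
    (permK dflt E k S' l0' l1' l2' κ 8 (Tb.get tb (Nat.land c 1023)).S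
      (Tb.get tb (Nat.land c 1023)).l0 (Tb.get tb (Nat.land c 1023)).l1
      (Tb.get tb (Nat.land c 1023)).l2 c') false

/-- projection of the vertex sets along the last position (`kk = 2 ^ k`) -/
def prj (kk low L : ℕ) : ℕ := Nat.lor (Nat.land L low) (Nat.shiftRight L kk)

/-- the current vertex (position `k`) takes the position `r` -/
noncomputable def prjU (r : PosR) (kk low L : ℕ) : ℕ :=
  fz (Nat.land L low) fun A => fz (Nat.shiftRight L kk) fun B =>
  Nat.lor (Nat.lor (Nat.land A r.j0) (Nat.shiftRight (Nat.land A r.j1) r.jw))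
    (Nat.lor (Nat.land B r.j1) (Nat.shiftLeft (Nat.land B r.j0) r.jw))

noncomputable def closeUs (dflt : SwR) (E : Env) (tb : Tb) (k kk low T l0 l1 l2 : ℕ)
    (κ : ℕ → Bool) (cho : List PosR) : ℕ → Bool :=
  @List.rec PosR (fun _ => ℕ → Bool) κ
    (fun r _ ih c =>
      cnd (Nat.beq (Nat.land l2 r.fm) 0)
        (dom dflt E tb k (fill E r.w (Nat.land T r.d0)) (prjU r kk low l0) (prjU r kk low l1)
          (prjU r kk low l2) c ih)
        (ih c)) cho

noncomputable def closeV (dflt : SwR) (E : Env) (tb : Tb) (k kk low T l0 l1 l2 c : ℕ)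
    (κ : ℕ → Bool) : Bool :=
  cnd (hit l2 kk) (κ c) (cnd (hit l2 (Nat.sub kk 1)) (κ c)
    (dom dflt E tb k (Nat.land T E.s0) (prj kk low l0) (prj kk low l1) (prj kk low l2) c κ))

/-- all edges at the current vertex are present -/
noncomputable def leaf (dflt : SwR) (E : Env) (tb : Tb) (W k kk low w : ℕ)
    (cho : List PosR) (T l0 l1 l2 c : ℕ) (κ : ℕ → Bool) : Bool :=
  cnd (Nat.beq k W)
    (closeV dflt E tb k kk low T l0 l1 l2 c
      (closeUs dflt E tb k kk low T l0 l1 l2 κ cho))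
    (dom dflt E tb (Nat.succ k) (fill E w (Nat.land T (Nat.sub (Nat.pow 2 w) 1))) l0 l1 l2 c κ)

/-- all ways to join the current vertex to the boundary -/
noncomputable def dfs (dflt : SwR) (E : Env) (tb : Tb) (W k kk low v1 v0 w : ℕ)
    (rem : List PosR) :
    List PosR → ℕ → ℕ → ℕ → ℕ → ℕ → (ℕ → Bool) → Bool :=
  @List.rec PosR (fun _ => List PosR → ℕ → ℕ → ℕ → ℕ → ℕ → (ℕ → Bool) → Bool)
    (fun cho T l0 l1 l2 c κ => leaf dflt E tb W k kk low w cho T l0 l1 l2 c κ)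
    (fun r _ ih cho T l0 l1 l2 c κ =>
      ih cho T l0 l1 l2 c fun c' =>
        fz (conv r T) fun T' =>
        fz (Nat.lor (Nat.land r.j1 v1) (Nat.land r.j0 v0)) fun same =>
        fz (Nat.land l0 same) fun l0' =>
        fz (Nat.lor (Nat.land l1 same) l0) fun l1' =>
        fz (Nat.lor (Nat.land l2 same) l1) fun l2' =>
        ih (r :: cho) T' l0' l1' l2' c' κ) rem

noncomputable def forg (dflt : SwR) (E : Env) (tb : Tb) (k S l0 l1 l2 : ℕ) (j : ℕ) :
    ℕ → (ℕ → Bool) → Bool :=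
  @Nat.rec (fun _ => ℕ → (ℕ → Bool) → Bool) (fun c κ => κ c)
    (fun j ih c κ => ih c fun c' =>
      cnd (Nat.ble 2 k && (hit l2 (2 ^ j) || hit l2 (2 ^ k - 1 - 2 ^ j))) (κ c')
        (cnd (Nat.beq (Nat.succ j) k)
          (dom dflt E tb (k - 1) S (prj (2 ^ j) (2 ^ (2 ^ j) - 1) l0)
            (prj (2 ^ j) (2 ^ (2 ^ j) - 1) l1) (prj (2 ^ j) (2 ^ (2 ^ j) - 1) l2) c' κ)
          (fz ((k - 1) * (k - 2) / 2 + j) fun i =>
           fz (2 ^ (k - 1)) fun u =>
            cnd (Nat.beq (nth dflt E.sw i).p j && Nat.beq (nth dflt E.sw i).q (k - 1))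
              (fz ((nth dflt E.sw i).a.app S) fun S1 =>
               fz ((nth dflt E.sw i).b.app l0) fun a0 =>
               fz ((nth dflt E.sw i).b.app l1) fun a1 =>
               fz ((nth dflt E.sw i).b.app l2) fun a2 =>
                cnd (sub ((nth dflt E.sw i).a.app S1) S &&
                    (sub ((nth dflt E.sw i).b.app a0) l0 &&
                    (sub ((nth dflt E.sw i).b.app a1) l1 && sub ((nth dflt E.sw i).b.app a2) l2)))
                  (dom dflt E tb (k - 1) S1 (prj u (2 ^ u - 1) a0)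
                    (prj u (2 ^ u - 1) a1) (prj u (2 ^ u - 1) a2) c' κ) false) false))) j

/-- sets of vertices after opening a new vertex -/
def opn (kk low L : ℕ) : ℕ :=
  Nat.lor (Nat.lor (Nat.land L low) (Nat.shiftLeft (Nat.land L low) kk))
    (Nat.lor (2 ^ kk) (2 ^ (kk - 1)))

/-- the test for one table state -/
noncomputable def chk (dflt : SwR) (E : Env) (tb : Tb) (W : ℕ) (s : St) (c : ℕ) : Bool :=
  fz (2 ^ s.k) fun kk =>
  fz (2 ^ kk - 1) fun low =>
  fz (dM 2 s.k 1 (W - s.k)) fun v1 =>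
  fz (dM 2 s.k 0 (W - s.k)) fun v0 =>
  fz (opn kk low s.l0) fun l0 => fz (opn kk low s.l1) fun l1 => fz (opn kk low s.l2) fun l2 =>
  fz s.k fun k => fz s.S fun S =>
  cnd (Nat.ble k W)
    (cnd (cnd (Nat.beq k 0) (hit S 0) true)
      (dfs dflt E tb W k kk low v1 v0 (5 ^ k) (E.pos.take k) [] S l0 l1 l2 c fun c' =>
        forg dflt E tb k S s.l0 s.l1 s.l2 k c' fun _ => true) false) false

end Pool.Agent.TH497.PW
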